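import Pool.Agent.U974.LG.Main

set_option autoImplicit false

/-!
# All matrices of Legendre symbols between the primes of one cluster, at every scale up to the record gap size

Let `f(X) = log X (log₂ X)² log₄ X / (log₃ X)²`, the size of the largest gaps between consecutive primes that are
known to occur up to `X`. For every `m` and every scale `T² ≤ c f(X)` there are clusters of boundedly many primes in
which all gaps are multiples of `T²`, isolated on both sides up to the distance `c f(X)`, which are universal for
Legendre symbols: for EVERY choice of signs `ε_ij`, `i < j`, the cluster contains primes `p_1 < ... < p_m` with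
`(p_j / p_i) = ε_ij` for all `i < j`. For `T² ≍ f(X)` all the gaps of the cluster are gaps of record size between
consecutive primes. The primes can be taken in a given class modulo a squarefree number and congruent to each other
modulo `L`. (For `L = 4` quadratic reciprocity gives the other half of the matrix: `(p_i / p_j) = (p_j / p_i)` for all
`i < j`, or `(p_i / p_j) = - (p_j / p_i)` for all `i < j`, according to the common class modulo `4`.) So every graph
and every tournament on `m` vertices occurs.

Proof. Let `Q` be a large prime. The places of the cluster are numbers `T² t_j`, divided into `Q - 1` consecutive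
blocks according to `t_j mod Q`, such that `t_j - t_i = M^(2i+2) w` with `w = 1 (mod M²)`, and such that every prime
`ℓ > 2K` which divides differences `t_j - t_i` does so for one class `t_i mod ℓ` only (`exists_good`). The residue
class of `n` modulo these `ℓ` is chosen such that `n + T² t_i` is congruent to `Q` times a square, and then for primes
`n + T² t_i`, `n + T² t_j` of different blocks `(n + T² t_j / n + T² t_i) = (t_j - t_i / Q)` (`arith`): a Paley graph.
The coloured Maynard-Tao theorem inside the record windows (starting library, `Pool.Agent.TH101.RG.tuple_multiples`,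
helper101) gives primes in a positive proportion of the blocks and nothing else up to the distance `c f(X)`; and every
set which contains a positive proportion of the residues modulo `Q` contains all patterns of quadratic characters of
differences, in order, if `Q` is large (`embed_order`, second moment of the quadratic character).
-/

open Filter

namespace Pool.Agent.Results.MP_f9960f_nt.LegendreMatricesEveryScale

/-- The record scale `f(x) = log x (log₂ x)² log₄ x / (log₃ x)²` (iterated natural logarithms). -/
noncomputable def f (x : ℝ) : ℝ :=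
  Real.log x * (Real.log (Real.log x)) ^ 2 * Real.log (Real.log (Real.log (Real.log x))) /
    (Real.log (Real.log (Real.log x))) ^ 2

/-- Let `m ≥ 0`, `L ≥ 1`, `d` squarefree and `b` prime to `d`. There are `C` and `c > 0` such that for all large `X`
and all integers `T ≥ 1` with `C T² ≤ c f(X)` at least `X^(7/8)` integers `n` of `(X, 3X]` have the following
properties. All primes at distance at most `c f(X)` from `n` are of the form `n + T² u` with `0 ≤ u ≤ C`. For all
signs `ε i j` there are primes `p_0 < ... < p_{m-1}` of this form, congruent to `b` modulo `d` and to each other modulo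
`L`, with Legendre symbols `(p_j / p_i) = ε i j` for all `i < j`. (The Jacobi symbol `jacobiSym a p` of Mathlib is the
Legendre symbol `(a / p)` if `p` is prime.) -/
theorem result (m L d b : ℕ) (hL : 0 < L) (hd : Squarefree d) (hb : b.Coprime d) :
    ∃ (C : ℕ) (c : ℝ), 0 < c ∧ ∃ X₀ : ℝ, ∀ X : ℝ, X₀ ≤ X →
    ∀ T : ℕ, 1 ≤ T → (C : ℝ) * (T : ℝ) ^ 2 ≤ c * f X →
    X ^ (7 / 8 : ℝ) ≤ ({n : ℕ | X < n ∧ (n : ℝ) ≤ 3 * X ∧
      (∀ q : ℕ, q.Prime → |(q : ℝ) - n| ≤ c * f X → ∃ u ≤ C, q = n + T ^ 2 * u) ∧
      ∀ ε : Fin m → Fin m → ℤ, (∀ i j, ε i j = 1 ∨ ε i j = -1) →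
        ∃ p : Fin m → ℕ, StrictMono p ∧
          (∀ i, (p i).Prime ∧ (∃ u ≤ C, p i = n + T ^ 2 * u) ∧ p i ≡ b [MOD d]) ∧
          (∀ i j, p i ≡ p j [MOD L]) ∧ ∀ i j, i < j → jacobiSym (p j) (p i) = ε i j}.ncard : ℝ) := by
  classical
  obtain ⟨C, c, hc, hX⟩ := Pool.Agent.U974.LG.main m L d b hL hd hb
  obtain ⟨X₀, hX₀⟩ := eventually_atTop.1 hX
  refine ⟨C, c, hc, X₀, fun X hXX T hT1 hT => ?_⟩
  set S := {n : ℕ | X < n ∧ (n : ℝ) ≤ 3 * X ∧
      (∀ q : ℕ, q.Prime → |(q : ℝ) - n| ≤ c * f X → ∃ u ≤ C, q = n + T ^ 2 * u) ∧
      ∀ ε : Fin m → Fin m → ℤ, (∀ i j, ε i j = 1 ∨ ε i j = -1) →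
        ∃ p : Fin m → ℕ, StrictMono p ∧
          (∀ i, (p i).Prime ∧ (∃ u ≤ C, p i = n + T ^ 2 * u) ∧ p i ≡ b [MOD d]) ∧
          (∀ i j, p i ≡ p j [MOD L]) ∧ ∀ i j, i < j → jacobiSym (p j) (p i) = ε i j} with hS
  have hfin : S.Finite := by
    apply (Set.finite_Iic ⌊3 * X⌋₊).subset
    intro p hp
    exact Set.mem_Iic.2 (Nat.le_floor hp.2.1)
  by_contra hcon
  push Not at hcon
  rw [Set.ncard_eq_toFinset_card S hfin] at hcon
  obtain ⟨n, hXn, hn3, hnb, h1, h2⟩ := hX₀ X hXX T hT1 hT hfin.toFinset hcon.le
  apply hnb
  rw [Set.Finite.mem_toFinset]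
  exact ⟨hXn, hn3, h1, h2⟩

end Pool.Agent.Results.MP_f9960f_nt.LegendreMatricesEveryScale
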