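import Pool.Agent.U642.DT.Fin2

set_option autoImplicit false

/-!
# Record prime gaps at the values of binary linear forms on two arbitrary dense sets

Let `f(x) = log x (log₂ x)² log₄ x / (log₃ x)²` be the order of the largest prime gaps that are
known to occur (starting files).  Let `A` and `B` be ANY two sets of integers in `[1, N]` with at least
`N / (log N) ^ K` elements each, let `α, β` be nonzero integers with absolute values at most
`(log N) ^ K`, and `v` any integer.  Then there are `a ∈ A` and `b ∈ B` such that no prime is at distance
at most `c f(N)` from one of the numbers `n, 2 n, …, J n`, `n = |α a + β b + v|`; `c > 0` depends only on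
`J` and `K`.

For instance every set `A` of at least `N / (log N) ^ K` integers up to `N` contains `a, a', …` such that
`a + a'`, or `a - a'`, or `2 a - 3 a' + v`, is in the middle of a prime gap of the record order `f(N)`
(with all its multiples up to `J`).  `A` and `B` can be sets of primes of positive relative density, sets of
sums of two squares, sets of norms and so on, and `v` can be as large as we please, so that the sets can
also be dense subsets of short intervals `[x, x + N]`, `[x', x' + N]`.  With the set of exceptions in the
role of `A` we see that for every such `B` all but at most `N / (log N) ^ K` of the integers `a ≤ N` have the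
property for some `b ∈ B`: almost all integers are the difference of the centre of a record gap and of an
element of `B`.

All known proofs of large gaps construct one residue class, or weights for the integers of structured
sets with known distribution in residue classes.  Here nothing is known on the two sets but the number of
their elements.

Method.  Let `y = log N / 10`.
(1) *Concentration of measure.*  Sets of residue classes modulo the product of the primes in
`((log y) ^ 8, y]` of density `(log N) ^ (-K)` are so large that for the sets of the popular classes of `A`
and `B` and EVERY target class `τ` there are popular classes with sum `τ` modulo all these primes but for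
exceptional ones with `∑ 1 / p ≤ (log y) ^ (-5/2)` (`DT/Conc`; proof by the exponential moments of the weighted
Hamming distance).  So one can take the class `0` for the medium primes and the best class for the
primes of Rankin's second step.
(2) *Small primes.*  The classes modulo the primes up to `(log y) ^ 8` are arbitrary.  A sieve for the
products of a small integer and a prime (`DT/Sieve`, Brun-Titchmarsh and an Euler product) shows that
they always reduce the number of the survivors by the expected factor.
(3) The at most `c log N` surviving shifts are covered by larger primes with the quadratic covering sieve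
of the starting library (H256R2/SC, helper256); a bound for all nonzero Fourier coefficients of its
weight (`DS/Mod`) and the large sieve give the positivity of the sum of the weight over pairs of
elements of two arbitrary sets of density `(log N) ^ (-K)` (`DS/Fou`, `DS/Cov`).
-/

namespace Pool.Agent.Results.MP_f9960f_nt.LinearFormsInDenseSets

open Finset Pool.Agent.U642.DT

/-- The record scale `f(x) = log x (log₂ x)² log₄ x / (log₃ x)²` (iterated natural logarithms). -/
noncomputable def f (x : ℝ) : ℝ :=
  Real.log x * (Real.log (Real.log x)) ^ 2 * Real.log (Real.log (Real.log (Real.log x))) /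
    (Real.log (Real.log (Real.log x))) ^ 2

/-- No prime is at distance `≤ R` from one of the numbers `d, 2 d, …, J d`. -/
def Far (J : ℕ) (d R : ℝ) : Prop :=
  ∀ j ∈ Icc 1 J, ∀ p : ℕ, p.Prime → R < |(p : ℝ) - j * d|

/-- For all `J`, `K` there is `c > 0` such that for all large `N`, all sets `A, B ⊆ [1, N]` with at least
`N / (log N) ^ K` elements, all nonzero integers `α, β` with absolute values `≤ (log N) ^ K` and all
integers `v` there are `a ∈ A`, `b ∈ B` with no prime at distance `≤ c f(N)` from
`j |α a + β b + v|`, `1 ≤ j ≤ J`. -/
theorem result (J K : ℕ) : ∃ c : ℝ, 0 < c ∧ ∃ N₀ : ℕ, ∀ N : ℕ, N₀ ≤ N →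
    ∀ A B : Finset ℕ, A ⊆ Icc 1 N → B ⊆ Icc 1 N →
    (N : ℝ) / (Real.log N) ^ K ≤ A.card → (N : ℝ) / (Real.log N) ^ K ≤ B.card →
    ∀ α β v : ℤ, α ≠ 0 → β ≠ 0 →
    |(α : ℝ)| ≤ (Real.log N) ^ K → |(β : ℝ)| ≤ (Real.log N) ^ K →
    ∃ a ∈ A, ∃ b ∈ B, Far J |(α : ℝ) * a + β * b + v| (c * f N) := by
  obtain ⟨c, hc, N₀, h⟩ := main_form (J + 1) K (by omega)
  refine ⟨c, hc, N₀, ?_⟩
  intro N hN A B hA hB hAc hBc α β v hα hβ hαK hβK
  obtain ⟨a, ha, b, hb, hab⟩ := h N hN A B hA hB hAc hBc α β v hα hβ hαK hβK
  refine ⟨a, ha, b, hb, ?_⟩
  intro j hj p hp
  rw [mem_Icc] at hj
  exact hab j (mem_Icc.mpr ⟨hj.1, by omega⟩) p hp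

end Pool.Agent.Results.MP_f9960f_nt.LinearFormsInDenseSets
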