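import Mathlib
import Pool.Agent.U839.Sv.Fin

set_option autoImplicit false

/-!
# Which sieved random models satisfy Cramér's conjecture?

In Cramér's model every `n` is chosen with probability `1 / log n`. In the model with the sieve `T` (proposed by
Granville after Maier's theorem) only the integers `n` without prime factors `p ≤ T(n)` are chosen, with
probability `∏_{p ≤ T(n)} (1 - 1/p)⁻¹ / log n`. Let `G(X)` be the largest gap `q' - q` between consecutive chosen
numbers `q ≤ X` and `q'`, and let `T` be nondecreasing and smaller than every power of `n`. We show: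

(A) Cramér's conjecture `G(X) ~ (log X)²` holds almost surely if and only if `T(n)` is smaller than every power of
`log n`.

(B) For every `θ > 0`, however small, there is `δ > 0`, which does not depend on `T`, such that almost surely
`G(X) ≥ (1 + δ) (log X)²` for all large `X` with `T(X/2) ≥ (log X)^θ`.

(C) For every `ε > 0` there is `θ > 0` such that `(1 - ε) (log X)² ≤ G(X) ≤ (1 + ε) (log X)²` for all large `X`
almost surely, if `T(n) ≤ (log n)^θ` for all large `n`.

Proof. (B): let `P` be the set of the primes between `z^(1 - τ)` and `z`, where `z = (log X)^(2/k)`, `k > 2/θ`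
is odd and `τ` is small. The first `c (log X)²` integers contain fewer integers without prime factors in `P`
than expected, by a constant factor (library `Pool.Agent.N610.MS`, developed for the separation of scales in
Maier's theorem). The other primes up to `T` are treated on the average over the multiples of the product of
the primes in `P`, by the fundamental lemma of the sieve (library `Pool.Agent.H154R3`). This gives `X^(1 - η)`
disjoint windows with a smaller expected number of elements, of which many are empty. (C): in a window of length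
`c (log X)²` the fundamental lemma applies, since `T` is a small power of the length.
-/

open MeasureTheory ProbabilityTheory Filter Topology

namespace Pool.Agent.Results.MP_f9960f_nt.SievedRandomModels

open Classical in
/-- `∏_{p ≤ T(n)} (1 - 1/p)⁻¹` if `n` has no prime factor `p ≤ T(n)`, and `0` otherwise. -/
noncomputable def weight (T : ℕ → ℕ) (n : ℕ) : ℝ :=
  if ∀ p, p.Prime → p ≤ T n → ¬ p ∣ n then
    ∏ p ∈ (Finset.Icc 1 (T n)).filter Nat.Prime, (1 - 1 / (p : ℝ))⁻¹ else 0

/-- The random model: `E n` is the event that `n` is chosen; these events are independent and have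
probability `weight T n / log n` (if this is at most `1`, which is the case for all large `n` here). -/
structure Model {Ω : Type*} [MeasurableSpace Ω] (μ : Measure Ω) (T : ℕ → ℕ) (E : ℕ → Set Ω) : Prop where
  meas : ∀ n, MeasurableSet (E n)
  indep : iIndepSet E μ
  law : ∀ n : ℕ, μ.real (E n) = min 1 (weight T n / Real.log n)

/-- The largest difference `q_(k+1) - q_k` of consecutive elements of `Q = {q_0 < q_1 < …}` with
`q_k ≤ X`. -/
noncomputable def G (Q : Set ℕ) (X : ℕ) : ℕ :=
  sSup {g | ∃ k, Nat.nth (· ∈ Q) k ≤ X ∧ g = Nat.nth (· ∈ Q) (k + 1) - Nat.nth (· ∈ Q) k}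

/-- `T` is nondecreasing and eventually smaller than every positive power of `n`. -/
def Sieve (T : ℕ → ℕ) : Prop :=
  Monotone T ∧ ∀ ε : ℝ, 0 < ε → ∀ᶠ n : ℕ in atTop, (T n : ℝ) ≤ (n : ℝ) ^ ε

theorem toSieved {Ω : Type*} [MeasurableSpace Ω] {μ : Measure Ω} {T : ℕ → ℕ} {E : ℕ → Set Ω}
    (h : Model μ T E) : Pool.Agent.U839.Sv.Sieved μ E T :=
  ⟨h.meas, h.indep, h.law⟩

/-- (A), (B), (C). -/
theorem result.{u} :
    (∀ T : ℕ → ℕ, Sieve T → ∀ (Ω : Type u) [MeasurableSpace Ω] (μ : Measure Ω)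
      [IsProbabilityMeasure μ] (E : ℕ → Set Ω), Model μ T E →
      ((∀ᵐ ω ∂μ, Tendsto (fun X : ℕ => (G {n | ω ∈ E n} X : ℝ) / (Real.log X) ^ 2) atTop (𝓝 1)) ↔
        ∀ θ : ℝ, 0 < θ → ∀ᶠ n : ℕ in atTop, (T n : ℝ) ≤ (Real.log n) ^ θ)) ∧
    (∀ θ : ℝ, 0 < θ → ∃ δ : ℝ, 0 < δ ∧ ∀ T : ℕ → ℕ, Sieve T →
      ∀ (Ω : Type u) [MeasurableSpace Ω] (μ : Measure Ω) [IsProbabilityMeasure μ] (E : ℕ → Set Ω),
      Model μ T E → ∀ᵐ ω ∂μ, ∀ᶠ X : ℕ in atTop, (Real.log X) ^ θ ≤ T (X / 2) →
        (1 + δ) * (Real.log X) ^ 2 ≤ G {n | ω ∈ E n} X) ∧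
    (∀ ε : ℝ, 0 < ε → ∃ θ : ℝ, 0 < θ ∧ ∀ T : ℕ → ℕ, Monotone T →
      (∀ᶠ n : ℕ in atTop, (T n : ℝ) ≤ (Real.log n) ^ θ) →
      ∀ (Ω : Type u) [MeasurableSpace Ω] (μ : Measure Ω) [IsProbabilityMeasure μ] (E : ℕ → Set Ω),
      Model μ T E → ∀ᵐ ω ∂μ, ∀ᶠ X : ℕ in atTop,
        (1 - ε) * (Real.log X) ^ 2 ≤ G {n | ω ∈ E n} X ∧
        (G {n | ω ∈ E n} X : ℝ) ≤ (1 + ε) * (Real.log X) ^ 2) := by
  refine ⟨?_, ?_, ?_⟩
  · intro T hT Ω _ μ _ E hE
    exact Pool.Agent.U839.Sv.partA T hT.1 hT.2 E (toSieved hE)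
  · intro θ hθ
    obtain ⟨δ, hδ, h⟩ := Pool.Agent.U839.Sv.partB.{u} θ hθ
    exact ⟨δ, hδ, fun T hT Ω _ μ _ E hE => h T hT.1 hT.2 Ω μ E (toSieved hE)⟩
  · intro ε hε
    obtain ⟨θ, hθ, h⟩ := Pool.Agent.U839.Sv.partC.{u} ε hε
    exact ⟨θ, hθ, fun T hT hT2 Ω _ μ _ E hE => h T hT hT2 Ω μ E (toSieved hE)⟩

end Pool.Agent.Results.MP_f9960f_nt.SievedRandomModels
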