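import Pool.Agent.U607.GapTwo

/-!
# Gaps between the integers with at most two prime factors: number of long gaps, second moment

For the sum of the squares of the gaps between consecutive primes up to `X` the bounds known without hypothesis have
exponents above `1.2`.  For the integers with at most two prime factors, all of them at least `X ^ (3 / 22)`, and for
every larger set of integers: the sum of the squares of the gaps up to `X` is `O(X ^ (25 / 22 + ε))`; at most
`C X ^ (12 / 11 + ε) / H ^ 2` gaps are longer than `H`, `H ≤ √X`; and no gap is longer than `C X ^ (6 / 11 + ε)`.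

Method: the weighted linear sieve and the large sieve for windows of the starting library
(`Pool.Agent.K3h31.WL.few_windows`, `Pool.Agent.K3h89.SI.every`), and the passage from empty windows to gaps.
-/

set_option autoImplicit false

namespace Pool.Agent.Results.MP_f9960f_nt.TwoPrimeFactorsGaps

open Finset

/-- `n > 1` has at most two prime factors (counted with multiplicity), all of them at least `w`. -/
def AtMostTwo (w : ℝ) (n : ℕ) : Prop :=
  1 < n ∧ n.primeFactorsList.length ≤ 2 ∧ ∀ q : ℕ, q.Prime → q ∣ n → w ≤ q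

open Classical in
/-- The pairs `(a, b)` of consecutive elements `a < b` of the set `A` with `1 ≤ a` and `b ≤ X`. -/
noncomputable def gaps (A : Set ℕ) (X : ℕ) : Finset (ℕ × ℕ) :=
  ((Icc 1 X) ×ˢ (Icc 1 X)).filter
    (fun z => z.1 ∈ A ∧ z.2 ∈ A ∧ z.1 < z.2 ∧ ∀ m ∈ A, ¬ (z.1 < m ∧ m < z.2))

open Classical in
/-- **Maximum, tail and second moment of the gaps.**  For every `ε > 0` there is a constant `C` such that for all
`X ≥ 3` and every set `A` which contains all the integers `n ≤ X` with at most two prime factors, all at least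
`X ^ (3 / 22)`: the gaps between consecutive elements of `A` up to `X` are at most `C X ^ (6 / 11 + ε)`; at most
`C X ^ (12 / 11 + ε) / H ^ 2` of them are longer than `H`, for every real `H`, `1 ≤ H ≤ √X`; and the sum of their squares
is at most `C X ^ (25 / 22 + ε)`. -/
theorem result (ε : ℝ) (hε : 0 < ε) :
    ∃ C : ℝ, 0 < C ∧ ∀ X : ℕ, 3 ≤ X → ∀ A : Set ℕ,
      (∀ n : ℕ, n ≤ X → AtMostTwo ((X : ℝ) ^ (3 / 22 : ℝ)) n → n ∈ A) →
      (∀ z ∈ gaps A X, (z.2 : ℝ) - z.1 ≤ C * (X : ℝ) ^ (6 / 11 + ε)) ∧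
      (∀ H : ℝ, 1 ≤ H → H ^ 2 ≤ X → (((gaps A X).filter (fun z => H < (z.2 : ℝ) - z.1)).card : ℝ) ≤
        C * ((X : ℝ) ^ (12 / 11 + ε) / H ^ 2)) ∧
      ∑ z ∈ gaps A X, ((z.2 : ℝ) - z.1) ^ 2 ≤ C * (X : ℝ) ^ (25 / 22 + ε) := by
  classical
  obtain ⟨C, hC, h⟩ := Pool.Agent.U607.GM.main2 ε hε
  refine ⟨C, hC, fun X hX A hA => ?_⟩
  have key : Pool.Agent.U607.GM.gaps (A ∪ {n | X < n}) X = gaps A X := by
    ext z
    rw [Pool.Agent.U607.GM.mem_gaps]
    unfold gaps
    rw [mem_filter, mem_product, mem_Icc, mem_Icc]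
    constructor
    · rintro ⟨⟨a1, a2, a3, a4⟩, b1, b2, b3, b4⟩
      refine ⟨⟨⟨a1, a2⟩, ⟨a3, a4⟩⟩, ?_, ?_, b3, fun m hm => b4 m (Or.inl hm)⟩
      · rcases b1 with h1 | h1
        · exact h1
        · have h2 : X < z.1 := h1
          omega
      · rcases b2 with h1 | h1
        · exact h1
        · have h2 : X < z.2 := h1
          omega
    · rintro ⟨⟨⟨a1, a2⟩, ⟨a3, a4⟩⟩, b1, b2, b3, b4⟩
      refine ⟨⟨a1, a2, a3, a4⟩, Or.inl b1, Or.inl b2, b3, ?_⟩
      rintro m (hm | hm)
      · exact b4 m hm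
      · have h2 : X < m := hm
        omega
  have h1 := h X hX (A ∪ {n | X < n}) (by
    intro n hn
    by_cases h2 : n ≤ X
    · exact Or.inl (hA n h2 hn)
    · exact Or.inr (show X < n by omega))
  rw [key] at h1
  exact h1

end Pool.Agent.Results.MP_f9960f_nt.TwoPrimeFactorsGaps
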